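import Pool.Agent.H555R4.DY.Stmts

/-! H555-LW DY-Meas: law of the first digits (helper142, second prover). -/

set_option autoImplicit false

open Finset Filter Topology

namespace Pool.Agent.H142R3.DY

open Pool.Agent.H555R4.DY

theorem num_succ (ε : ℕ → Bool) (p : ℕ) :
    num ε (p + 1) = num ε p + (if ε p then 2 ^ p else 0) := by
  unfold num; rw [sum_range_succ]

theorem num_lt (ε : ℕ → Bool) (p : ℕ) : num ε p < 2 ^ p := by
  induction p with
  | zero => simp [num]
  | succ p ih =>
    rw [num_succ, pow_succ]
    split_ifs <;> omega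

theorem num_inj (ε ε' : ℕ → Bool) (p : ℕ) (h : num ε p = num ε' p) : ∀ i < p, ε i = ε' i := by
  induction p with
  | zero => intro i hi; omega
  | succ p ih =>
    rw [num_succ, num_succ] at h
    have h1 := num_lt ε p
    have h2 := num_lt ε' p
    have h3 : ε p = ε' p ∧ num ε p = num ε' p := by
      cases e : ε p <;> cases e' : ε' p <;> simp [e, e'] at h ⊢ <;> omega
    intro i hi
    rcases Nat.lt_succ_iff_lt_or_eq.1 hi with hi | rfl
    · exact ih h3.2 i hi
    · exact h3.1

theorem taskMeas : TaskMeas := by
  intro p n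
  rcases Set.eq_empty_or_nonempty {ε | num ε p = n} with h | ⟨ε₀, h₀⟩
  · rw [h]; simp
  have hsub : {ε | num ε p = n} ⊆ Set.pi (range p : Finset ℕ) (fun i => {ε₀ i}) := by
    intro ε hε i hi
    have hi' : i < p := by simpa using hi
    have h1 : num ε p = n := hε
    have h2 : num ε₀ p = n := h₀
    exact num_inj ε ε₀ p (h1.trans h2.symm) i hi'
  refine (MeasureTheory.measure_mono hsub).trans ?_
  unfold coin
  rw [MeasureTheory.Measure.infinitePi_pi _ (fun i _ => measurableSet_singleton _)]
  have h1 : ∀ b : Bool, (PMF.uniformOfFintype Bool).toMeasure {b} = 2⁻¹ := by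
    intro b
    rw [PMF.toMeasure_apply_singleton _ _ (measurableSet_singleton b)]
    simp
  simp only [h1, prod_const, card_range]
  rw [ENNReal.ofReal_div_of_pos (by positivity), ENNReal.ofReal_one,
    ENNReal.ofReal_pow (by norm_num), ENNReal.ofReal_ofNat, one_div, ENNReal.inv_pow]

end Pool.Agent.H142R3.DY
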